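import Pool.Agent.R239.NilRet.NonIso
import Pool.Agent.R239.NilRet.Asym

/-!
Return times to open sets with asymmetric closure do not determine a minimal nilsystem.
-/

open Set Topology
open scoped Manifold ContDiff Pointwise

namespace Pool.Agent.Results.MP_2aa58c_an.HeisenbergReturnTimes

/-- The set `U` has asymmetric closure: every element of the group `G` that maps the closure of `U`
onto itself acts trivially on the whole space. -/
def AsymmetricClosure (G : Type) {X : Type} [Group G] [MulAction G X] [TopologicalSpace X]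
    (U : Set X) : Prop :=
  ∀ g : G, g • closure U = closure U → ∀ v : X, g • v = v

/-- There is a simply connected nilpotent Lie group `G` (a Polish group) with discrete cocompact
subgroups `Γ₁ ≤ Γ₂`, an element `τ` whose translations of both nilmanifolds are minimal, and open
sets `U₁`, `U₂` with asymmetric closure, such that every point `x₁` of the first nilmanifold has the
same return times as some point `x₂` of the second one, although no homeomorphism between the two
nilmanifolds intertwines the two translations. -/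
theorem result :
    ∃ (G : Type) (_ : Group G) (_ : TopologicalSpace G) (_ : ChartedSpace (ℝ × ℝ × ℝ) G),
      LieGroup 𝓘(ℝ, ℝ × ℝ × ℝ) ω G ∧ IsTopologicalGroup G ∧ PolishSpace G ∧
      SimplyConnectedSpace G ∧ Group.IsNilpotent G ∧
      ∃ Γ₁ Γ₂ : Subgroup G, Γ₁ ≤ Γ₂ ∧ DiscreteTopology Γ₁ ∧ DiscreteTopology Γ₂ ∧
        CompactSpace (G ⧸ Γ₁) ∧ CompactSpace (G ⧸ Γ₂) ∧
        ∃ (τ : G) (U₁ : Set (G ⧸ Γ₁)) (U₂ : Set (G ⧸ Γ₂)),
          IsOpen U₁ ∧ IsOpen U₂ ∧ AsymmetricClosure G U₁ ∧ AsymmetricClosure G U₂ ∧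
          (∀ v : G ⧸ Γ₁, Dense (range fun n : ℤ => τ ^ n • v)) ∧
          (∀ v : G ⧸ Γ₂, Dense (range fun n : ℤ => τ ^ n • v)) ∧
          (∀ x₁ : G ⧸ Γ₁, ∃ x₂ : G ⧸ Γ₂,
            {n : ℤ | τ ^ n • x₁ ∈ U₁} = {n : ℤ | τ ^ n • x₂ ∈ U₂}) ∧
          ¬ ∃ φ : (G ⧸ Γ₁) ≃ₜ (G ⧸ Γ₂), ∀ v, φ (τ • v) = τ • φ v := by
  refine ⟨R239.NilRet.Heis, inferInstance, inferInstance, inferInstance, inferInstance,
    inferInstance, inferInstance, inferInstance, inferInstance, R239.NilRet.Gam1,
    R239.NilRet.Gam2, R239.NilRet.Gam1_le_Gam2, inferInstance, inferInstance, inferInstance,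
    inferInstance, R239.NilRet.tau, R239.NilRet.U1, R239.NilRet.U2, R239.NilRet.isOpen_U1,
    R239.NilRet.isOpen_U2, R239.NilRet.asym_U1, R239.NilRet.asym_U2, R239.NilRet.minimal1,
    R239.NilRet.minimal2, ?_, R239.NilRet.not_iso⟩
  intro x₁
  refine ⟨R239.NilRet.proj x₁, ?_⟩
  ext n
  show R239.NilRet.proj (R239.NilRet.tau ^ n • x₁) ∈ R239.NilRet.U2 ↔ _
  rw [R239.NilRet.proj_smul]
  exact Iff.rfl

end Pool.Agent.Results.MP_2aa58c_an.HeisenbergReturnTimes
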